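import Pool.Agent.Work.MP_09e03f_lc.Main

/-!
# Describing projections of sets defined by two quadratic inequalities takes exponential time

Idea.  Let `S` be given by
`v ≥ ∑ a_j² + ∑ b_i²` and
`2 ∑ w_j a_j + 2 ∑ b_i - ∑ α_j a_j² - ∑ μ_i b_i² ≥ u² + v² + ∑ w_j²`
(quantified variables `a_1, …, a_n, b_0, …, b_n`, free variables `w_1, …, w_n, u, v`).  Lagrange
multipliers parametrise the boundary of `π(S)`: the multiplier is `r`, `a_j = x_j`,
`b_i = 1 / (r + μ_i)`, `w_j = (r + α_j) x_j`.  Near `r = - α_j` the (complexified) boundary
hypersurface has curves with `u = O(s)`, `w = O(s²)`, `v = s^(2M)` for every large `M`, and they show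
that the initial form, for these weights, of every polynomial `Q ≠ 0` that vanishes on a piece of the
boundary vanishes on the `n` sets `w_j = θ_j u²`; this forces `2 ^ n` monomials.  Rescaling the free
variables by generic factors turns the number of monomials into the number of distinct
coefficients.
-/

namespace Pool.Agent.Results.MP_09e03f_lc.ExponentialLowerBound

open Pool.Agent.Work.MP_09e03f_lc

/-- For all `ℓ ≥ 2` and `n` there is an admissible input `P`, with `k = 2 n + 1` and `m = n + 2`,
such that for every semi-algebraic description `φ` of `π(S)`, every computation which starts with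
the coefficients of `P` and finitely many constants `C`, and which produces all coefficients of all
polynomials written in `φ`, has at least `2 ^ n - |C| - 2 (3 n + 4)²` arithmetic operations. -/
theorem result (ℓ : ℕ) (hℓ : 2 ≤ ℓ) (n : ℕ) :
    ∃ P : Fin ℓ → MvPolynomial (Fin (2 * n + 1) ⊕ Fin (n + 2)) ℝ, Admissible P ∧
      ∀ φ : QF (Fin (n + 2)), Describes φ P → ∀ (C : Finset ℝ) (L : List ℝ),
        IsComputation (↑C ∪ inputs P) L →
        (∀ Q ∈ φ.factors, ∀ d, Q.coeff d ∈ ↑C ∪ inputs P ∪ {a | a ∈ L}) →
        2 ^ n ≤ L.length + C.card + 2 * (3 * n + 4) ^ 2 :=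
  main ℓ hℓ n

end Pool.Agent.Results.MP_09e03f_lc.ExponentialLowerBound
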